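import Mathlib

set_option autoImplicit false

/-!
# Real periods of cubics with three real roots: the two components and the 2-isogenies

After `Pool.Agent.N591.SN.Core`.
-/

namespace Pool.Agent.N832.SN

open MeasureTheory Set

/-- substitution -/
lemma subst {s : Set ℝ} (hs : MeasurableSet s) {φ φ' h k : ℝ → ℝ} (hφ : ∀ x ∈ s, HasDerivAt φ (φ' x) x)
    (hinj : InjOn φ s) (hk : ∀ x ∈ s, |φ' x| * h (φ x) = k x) :
    (∫ x in φ '' s, h x) = (∫ x in s, k x) ∧ (IntegrableOn h (φ '' s) ↔ IntegrableOn k s) := by
  have h1 : ∀ x ∈ s, HasDerivWithinAt φ (φ' x) s x := fun x hx => (hφ x hx).hasDerivWithinAt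
  refine ⟨?_, ?_⟩
  · rw [integral_image_eq_integral_abs_deriv_smul hs h1 hinj]
    exact setIntegral_congr_fun hs fun x hx => by simpa using hk x hx
  · rw [integrableOn_image_iff_integrableOn_abs_deriv_smul hs h1 hinj]
    exact integrableOn_congr_fun (fun x hx => by simpa using hk x hx) hs

/-- two parts with the same integral -/
lemma twice {A B : Set ℝ} (hB : MeasurableSet B) (hAB : Disjoint A B) {h : ℝ → ℝ}
    (h1 : ∫ x in A, h x = ∫ x in B, h x) (h2 : IntegrableOn h A ↔ IntegrableOn h B) :
    ∫ x in A ∪ B, h x = 2 * ∫ x in B, h x := by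
  by_cases hi : IntegrableOn h B
  · rw [setIntegral_union hAB hB (h2.mpr hi) hi, h1, two_mul]
  · have h3 : ¬ IntegrableOn h (A ∪ B) := fun h4 => hi (h4.mono_set subset_union_right)
    rw [integral_undef h3, integral_undef hi, mul_zero]

/-- the cubic with the roots `u`, `v`, `w` -/
def P3 (u v w x : ℝ) : ℝ := 4 * ((x - u) * ((x - v) * (x - w)))

lemma P3_pos_iff {u v w : ℝ} (huv : u < v) (hvw : v < w) (x : ℝ) :
    0 < P3 u v w x ↔ x ∈ Ioo u v ∪ Ioi w := by
  rw [P3, mem_union, mem_Ioo, mem_Ioi]
  constructor
  · intro h
    have h' : 0 < (x - u) * ((x - v) * (x - w)) := by linarith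
    rcases le_or_gt x u with hx | hx
    · exfalso
      have h3 : 0 ≤ (x - v) * (x - w) := mul_nonneg_of_nonpos_of_nonpos (by linarith) (by linarith)
      have h4 : (x - u) * ((x - v) * (x - w)) ≤ 0 := mul_nonpos_of_nonpos_of_nonneg (by linarith) h3
      linarith
    · rcases lt_or_ge x v with hv | hv
      · exact Or.inl ⟨hx, hv⟩
      · right
        by_contra hc
        push Not at hc
        have h3 : (x - v) * (x - w) ≤ 0 := mul_nonpos_of_nonneg_of_nonpos (by linarith) (by linarith)
        have h4 : (x - u) * ((x - v) * (x - w)) ≤ 0 :=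
          mul_nonpos_of_nonneg_of_nonpos (by linarith) h3
        linarith
  · rintro (⟨h3, h4⟩ | h3)
    · exact mul_pos (by norm_num) (mul_pos (by linarith)
        (mul_pos_of_neg_of_neg (by linarith) (by linarith)))
    · exact mul_pos (by norm_num) (mul_pos (by linarith) (mul_pos (by linarith) (by linarith)))

/-- the two components have the same integral -/
lemma half3 {u v w : ℝ} (huv : u < v) (hvw : v < w) :
    ∫ x in {x : ℝ | 0 < P3 u v w x}, 1 / √(P3 u v w x) = 2 * ∫ x in Ioi w, 1 / √(P3 u v w x) := by
  have hset : {x : ℝ | 0 < P3 u v w x} = Ioo u v ∪ Ioi w := by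
    ext x; exact P3_pos_iff huv hvw x
  have hk : 0 < (v - u) * (w - u) := mul_pos (by linarith) (by linarith)
  obtain ⟨k, hkk⟩ : ∃ k, k = (v - u) * (w - u) := ⟨_, rfl⟩
  rw [← hkk] at hk
  have himg : (fun x => u + k / (x - u)) '' Ioi w = Ioo u v := by
    ext y
    constructor
    · rintro ⟨x, hx, rfl⟩
      have hx' : w < x := hx
      have hx0 : 0 < x - u := by linarith
      have hp : 0 < k / (x - u) := by positivity
      refine ⟨by simp only; linarith, ?_⟩
      have : k / (x - u) < v - u := by
        rw [div_lt_iff₀ hx0, hkk]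
        exact mul_lt_mul_of_pos_left (by linarith) (by linarith)
      simp only
      linarith
    · rintro ⟨h1, h2⟩
      have hy0 : 0 < y - u := by linarith
      refine ⟨u + k / (y - u), ?_, ?_⟩
      · show w < _
        have : w - u < k / (y - u) := by
          rw [lt_div_iff₀ hy0, hkk]
          have : (w - u) * (y - u) < (w - u) * (v - u) :=
            mul_lt_mul_of_pos_left (by linarith) (by linarith)
          linarith
        linarith
      · simp only
        have hy1 : y - u ≠ 0 := hy0.ne'
        have e : u + k / (y - u) - u = k / (y - u) := by ring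
        rw [e]
        have hk0 := hk.ne'
        field_simp
        ring
  have key := subst (s := Ioi w) measurableSet_Ioi (φ := fun x => u + k / (x - u))
    (φ' := fun x => -(k / (x - u) ^ 2)) (h := fun x => 1 / √(P3 u v w x))
    (k := fun x => 1 / √(P3 u v w x)) (by
      intro x hx
      have hx' : w < x := hx
      have hx0 : x - u ≠ 0 := by linarith
      have h1 : HasDerivAt (fun x : ℝ => x - u) 1 x := (hasDerivAt_id x).sub_const u
      have h2 : HasDerivAt (fun x : ℝ => u + k * (x - u)⁻¹) (k * (-1 / (x - u) ^ 2)) x :=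
        ((h1.inv hx0).const_mul k).const_add u
      have e1 : (fun x : ℝ => u + k / (x - u)) = fun x : ℝ => u + k * (x - u)⁻¹ := by
        funext z; rw [div_eq_mul_inv]
      rw [e1]
      convert h2 using 1
      ring) (by
      intro x hx y hy hxy
      have hx' : w < x := hx
      have hy' : w < y := hy
      have hx0 : x - u ≠ 0 := by linarith
      have hy0 : y - u ≠ 0 := by linarith
      simp only at hxy
      have h1 : k / (x - u) = k / (y - u) := by linarith
      rw [div_eq_div_iff hx0 hy0] at h1
      have := mul_left_cancel₀ hk.ne' h1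
      linarith) (by
      intro x hx
      have hx' : w < x := hx
      have hx0 : 0 < x - u := by linarith
      have hp1 : 0 < P3 u v w x := (P3_pos_iff huv hvw x).2 (Or.inr hx)
      have hs : 0 < √(P3 u v w x) := Real.sqrt_pos.mpr hp1
      have hp2 : P3 u v w (u + k / (x - u)) = (k / (x - u) ^ 2) ^ 2 * P3 u v w x := by
        rw [P3, P3, hkk]
        have := hx0.ne'
        field_simp
        ring
      have hq : 0 < k / (x - u) ^ 2 := by positivity
      rw [abs_neg, hp2, Real.sqrt_mul (sq_nonneg _), Real.sqrt_sq_eq_abs, abs_of_pos hq]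
      generalize k / (x - u) ^ 2 = r at hq
      field_simp)
  rw [himg] at key
  rw [hset]
  refine twice measurableSet_Ioi ?_ key.1 key.2
  rw [Set.disjoint_left]
  intro x hx hx2
  have h4 : w < x := hx2
  have h5 := hx.2
  linarith

/-- the cubic of the isogenous curve -/
def Q3 (u v w x : ℝ) : ℝ := 4 * (x * (x ^ 2 + 2 * (v + w - 2 * u) * x + (w - v) ^ 2))

/-- the isogeny with kernel `(u, 0)` -/
lemma iso3 {u v w : ℝ} (huw : u < w) (hvw : v < w) :
    ∫ x in Ioi (0 : ℝ), 1 / √(Q3 u v w x) = ∫ x in Ioi w, 1 / √(P3 u v w x) := by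
  obtain ⟨φ, hφ⟩ : ∃ φ : ℝ → ℝ, φ = fun x => (x - v) * (x - w) / (x - u) := ⟨_, rfl⟩
  have hinj : InjOn φ (Ioi w) := by
    intro x hx y hy hxy
    have hx' : w < x := hx
    have hy' : w < y := hy
    have hx0 : x - u ≠ 0 := by linarith
    have hy0 : y - u ≠ 0 := by linarith
    rw [hφ] at hxy
    simp only at hxy
    rw [div_eq_div_iff hx0 hy0] at hxy
    have h1 : (x - y) * ((x - u) * (y - u) - (v - u) * (w - u)) = 0 := by
      linear_combination hxy
    have h2 : (v - u) * (w - u) < (x - u) * (y - u) := by
      have h3 : (v - u) * (w - u) < (w - u) * (w - u) :=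
        mul_lt_mul_of_pos_right (by linarith) (by linarith)
      have h4 : (w - u) * (w - u) < (x - u) * (y - u) :=
        mul_lt_mul'' (by linarith) (by linarith) (by linarith) (by linarith)
      linarith
    rcases mul_eq_zero.mp h1 with h3 | h3
    · linarith
    · linarith
  have himg : φ '' Ioi w = Ioi 0 := by
    ext y
    constructor
    · rintro ⟨x, hx, rfl⟩
      have hx' : w < x := hx
      rw [hφ, mem_Ioi]
      exact div_pos (mul_pos (by linarith) (by linarith)) (by linarith)
    · intro hy
      rw [mem_Ioi] at hy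
      have hcont : ContinuousOn φ (Ici w) := by
        rw [hφ]
        refine ContinuousOn.div (by fun_prop) (by fun_prop) fun x hx => ?_
        have : w ≤ x := hx
        have : 0 < x - u := by linarith
        exact this.ne'
      have h1 : φ w = 0 := by rw [hφ]; simp
      have ht : 0 < y + |v - u| := by positivity
      have h4 : y ≤ φ (w + (y + |v - u|)) := by
        rw [hφ]
        simp only
        rw [le_div_iff₀ (by linarith)]
        have h5 := abs_nonneg (v - u)
        have h6 := le_abs_self (v - u)
        have h7 : 0 < w - u := by linarith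
        have h8 : 0 < w - v := by linarith
        have e : (w + (y + |v - u|) - v) * (w + (y + |v - u|) - w)
            - y * (w + (y + |v - u|) - u)
            = |v - u| * (w - v) + y * (|v - u| - (v - u)) + |v - u| * |v - u| := by
          ring
        have h9 : 0 ≤ y * (|v - u| - (v - u)) := mul_nonneg hy.le (by linarith)
        have h10 : 0 ≤ |v - u| * (w - v) := mul_nonneg h5 h8.le
        have h11 : 0 ≤ |v - u| * |v - u| := mul_nonneg h5 h5
        linarith
      obtain ⟨x, hx, hxy⟩ := intermediate_value_Icc (a := w) (b := w + (y + |v - u|))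
        (by linarith) (hcont.mono Icc_subset_Ici_self) ⟨by rw [h1]; exact hy.le, h4⟩
      refine ⟨x, ?_, hxy⟩
      rw [mem_Ioi]
      refine lt_of_le_of_ne hx.1 ?_
      rintro rfl
      rw [h1] at hxy
      linarith
  have h1 := (subst (s := Ioi w) measurableSet_Ioi (φ := φ)
    (φ' := fun x => 1 - (v - u) * (w - u) / (x - u) ^ 2)
    (h := fun x => 1 / √(Q3 u v w x)) (k := fun x => 1 / √(P3 u v w x)) (by
      intro x hx
      have hx' : w < x := hx
      have hx0 : x - u ≠ 0 := by linarith
      have h0 : HasDerivAt (fun x : ℝ => x - u) 1 x := (hasDerivAt_id x).sub_const u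
      have ha : HasDerivAt (fun x : ℝ => x - v) 1 x := (hasDerivAt_id x).sub_const v
      have hb : HasDerivAt (fun x : ℝ => x - w) 1 x := (hasDerivAt_id x).sub_const w
      have h2 : HasDerivAt (fun x : ℝ => (x - v) * (x - w) / (x - u))
          (((1 * (x - w) + (x - v) * 1) * (x - u) - (x - v) * (x - w) * 1) / (x - u) ^ 2) x :=
        (ha.mul hb).div h0 hx0
      rw [hφ]
      have e : 1 - (v - u) * (w - u) / (x - u) ^ 2
          = ((1 * (x - w) + (x - v) * 1) * (x - u) - (x - v) * (x - w) * 1) / (x - u) ^ 2 := by
        field_simp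
        ring
      rw [e]
      exact h2) hinj (by
      intro x hx
      have hx' : w < x := hx
      have hx0 : 0 < x - u := by linarith
      have hb : (v - u) * (w - u) < (x - u) ^ 2 := by
        have h3 : (v - u) * (w - u) < (w - u) * (w - u) :=
          mul_lt_mul_of_pos_right (by linarith) (by linarith)
        have h4 : (w - u) * (w - u) < (x - u) * (x - u) :=
          mul_lt_mul'' (by linarith) (by linarith) (by linarith) (by linarith)
        rw [sq]
        linarith
      have hf : 0 < φ x := by
        rw [hφ]
        exact div_pos (mul_pos (by linarith) (by linarith)) hx0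
      have e0 : 1 - (v - u) * (w - u) / (x - u) ^ 2
          = ((x - u) ^ 2 - (v - u) * (w - u)) / (x - u) ^ 2 := by
        field_simp
      have hr : 0 < ((x - u) ^ 2 - (v - u) * (w - u)) / (x - u) ^ 2 := by
        apply div_pos (by linarith) (by positivity)
      have e1 : Q3 u v w (φ x) = (((x - u) ^ 2 - (v - u) * (w - u)) / (x - u)) ^ 2
          * (4 * φ x) := by
        rw [hφ]
        unfold Q3
        have := hx0.ne'
        simp only
        field_simp
        ring
      have e2 : P3 u v w x = (x - u) ^ 2 * (4 * φ x) := by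
        rw [hφ]
        unfold P3
        have := hx0.ne'
        simp only
        field_simp
      have hw : 0 < ((x - u) ^ 2 - (v - u) * (w - u)) / (x - u) :=
        div_pos (by linarith) hx0
      have hs : 0 < √(4 * φ x) := Real.sqrt_pos.mpr (by linarith)
      have hx1 := hx0.ne'
      have hnum : 0 < (x - u) ^ 2 - (v - u) * (w - u) := by linarith
      rw [e0, e1, e2, Real.sqrt_mul (sq_nonneg _), Real.sqrt_mul (sq_nonneg _),
        Real.sqrt_sq hw.le, Real.sqrt_sq hx0.le, abs_of_pos hr]
      generalize (x - u) ^ 2 - (v - u) * (w - u) = N at hnum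
      generalize √(4 * φ x) = S at hs
      field_simp)).1
  rw [himg] at h1
  exact h1

/-- the region for a cubic positive on the positive reals only -/
lemma Q3_set {u v w : ℝ} (hD : ∀ x : ℝ, 0 < x ^ 2 + 2 * (v + w - 2 * u) * x + (w - v) ^ 2) :
    {x : ℝ | 0 < Q3 u v w x} = Ioi 0 := by
  ext x
  rw [mem_ofPred_eq, mem_Ioi, Q3]
  constructor
  · intro h
    by_contra hc
    push Not at hc
    have := mul_nonpos_of_nonpos_of_nonneg hc (hD x).le
    linarith
  · intro h
    exact mul_pos (by norm_num) (mul_pos h (hD x))

end Pool.Agent.N832.SN
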