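import Pool.Agent.N818.SN.Stm4
import Pool.Agent.N832.SN.Core

set_option autoImplicit false

/-!
# Project SN: the real periods of `WD`, `WE` and `WF`
-/

namespace Pool.Agent.N832.SN

open MeasureTheory Set
open Pool.Agent.N818.SN

lemma cubicA (n : ℕ) (x : ℝ) : cubic (WA n) x = P3 (-n) 0 (3 * n) x := by
  unfold cubic WA P3 WeierstrassCurve.b₂ WeierstrassCurve.b₄ WeierstrassCurve.b₆
  push_cast
  ring

lemma cubicD (n : ℕ) (x : ℝ) : cubic (WD n) x = P3 (-(9 * n)) (-n) 0 x := by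
  unfold cubic WD P3 WeierstrassCurve.b₂ WeierstrassCurve.b₄ WeierstrassCurve.b₆
  push_cast
  ring

lemma P3_swap (u v w x : ℝ) : P3 u v w x = P3 v u w x := by unfold P3; ring

lemma cubicE (n : ℕ) (x : ℝ) : cubic (WE n) x = Q3 (-n) (-(9 * n)) 0 x := by
  unfold cubic WE Q3 WeierstrassCurve.b₂ WeierstrassCurve.b₄ WeierstrassCurve.b₆
  push_cast
  ring

lemma cubicF (n : ℕ) (x : ℝ) : cubic (WF n) x = Q3 (-(9 * n)) (-n) 0 x := by
  unfold cubic WF Q3 WeierstrassCurve.b₂ WeierstrassCurve.b₄ WeierstrassCurve.b₆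
  push_cast
  ring

lemma QD (d x : ℝ) : Q3 (-d) 0 (3 * d) x = P3 (-(9 * d)) (-d) 0 x := by
  unfold Q3 P3; ring

/-- half of the real period of `WA` -/
lemma perA {d : ℝ} (hd : 0 < d) : ∫ x in {x : ℝ | 0 < P3 (-d) 0 (3 * d) x},
    1 / √(P3 (-d) 0 (3 * d) x) = 2 * ∫ x in Ioi (0 : ℝ), 1 / √(P3 (-(9 * d)) (-d) 0 x) := by
  rw [half3 (by linarith) (by linarith), ← iso3 (by linarith) (by linarith)]
  simp only [QD]

/-- half of the real period of `WD` -/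
lemma perD {d : ℝ} (hd : 0 < d) : ∫ x in {x : ℝ | 0 < P3 (-(9 * d)) (-d) 0 x},
    1 / √(P3 (-(9 * d)) (-d) 0 x) = 2 * ∫ x in Ioi (0 : ℝ), 1 / √(P3 (-(9 * d)) (-d) 0 x) :=
  half3 (by linarith) (by linarith)

/-- the real period of `WE` -/
lemma perE {d : ℝ} (hd : 0 < d) : ∫ x in {x : ℝ | 0 < Q3 (-d) (-(9 * d)) 0 x},
    1 / √(Q3 (-d) (-(9 * d)) 0 x) = ∫ x in Ioi (0 : ℝ), 1 / √(P3 (-(9 * d)) (-d) 0 x) := by
  rw [Q3_set (fun x => by nlinarith [sq_nonneg (x - 7 * d), sq_pos_of_pos hd]),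
    iso3 (by linarith) (by linarith)]
  simp only [P3_swap (-d)]

/-- the roots of the quadratic factor of `WF` -/
lemma QF (d x : ℝ) : Q3 (-(9 * d)) (-d) 0 x
    = P3 (-(17 * d) - 12 * √2 * d) (-(17 * d) + 12 * √2 * d) 0 x := by
  have h2 : √2 ^ 2 = (2 : ℝ) := Real.sq_sqrt (by norm_num)
  unfold Q3 P3
  linear_combination (576 * d ^ 2 * x) * h2

/-- half of the real period of `WF` -/
lemma perF {d : ℝ} (hd : 0 < d) : ∫ x in {x : ℝ | 0 < Q3 (-(9 * d)) (-d) 0 x},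
    1 / √(Q3 (-(9 * d)) (-d) 0 x) = 2 * ∫ x in Ioi (0 : ℝ), 1 / √(P3 (-(9 * d)) (-d) 0 x) := by
  have h2 : √2 ^ 2 = (2 : ℝ) := Real.sq_sqrt (by norm_num)
  have h0 : 0 < √2 := by positivity
  have h1 : √2 < 17 / 12 := by nlinarith
  have h3 : 0 < √2 * d := mul_pos h0 hd
  have h4 : √2 * d < 17 / 12 * d := mul_lt_mul_of_pos_right h1 hd
  rw [← iso3 (u := -(9 * d)) (v := -d) (w := 0) (by linarith) (by linarith)]
  simp only [QF]
  exact half3 (by linarith) (by linarith)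

/-- SN-OD -/
theorem t_OD : Pool.Agent.N818.SN.S_OD := by
  intro n hn
  have hd : (0:ℝ) < n := by exact_mod_cast hn
  unfold Omega
  simp only [cubicA, cubicD]
  rw [perA hd, perD hd]

/-- SN-OE -/
theorem t_OE : Pool.Agent.N818.SN.S_OE := by
  intro n hn
  have hd : (0:ℝ) < n := by exact_mod_cast hn
  unfold Omega
  simp only [cubicE, cubicD]
  rw [perE hd, perD hd]

/-- SN-OF -/
theorem t_OF : Pool.Agent.N818.SN.S_OF := by
  intro n hn
  have hd : (0:ℝ) < n := by exact_mod_cast hn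
  unfold Omega
  simp only [cubicF, cubicD]
  rw [perF hd, perD hd]

end Pool.Agent.N832.SN
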